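import Mathlib
import Pool.Agent.LawsFL.Test

set_option autoImplicit false
set_option linter.unusedSectionVars false
set_option linter.unusedVariables false

/-!
# Two-variable laws: definitions, naturality and the merging theorem
-/

namespace Pool.Agent.Asc61

open Pool.Agent.LawsFI (F)
open Pool.Agent.LawsFL (wrd)

section defs

variable {G : Type*} [Group G]

/-- the commutator `a⁻¹b⁻¹ab` -/
def ct (a b : G) : G := a⁻¹ * b⁻¹ * a * b

variable (m : ℕ)

def JJ (t g : G) : G := (ct t g) ^ m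

def pp (a b : G) : G := a * (a * b) ^ m

def CC (j : ℕ → G) : ℕ → G → G
  | 0, b => b
  | n+1, b => pp m (CC j n (j n)) (CC j n b)

def tt (ζ : ℕ → G) : G := (ct ((ζ 0) ^ m) (ζ 3)) ^ m

def ww (ζ : ℕ → G) (n : ℕ) : G := ζ (3 * (n + 2))

def vv (ζ : ℕ → G) (n : ℕ) : G :=
  FreeGroup.lift (fun i => (ζ (3 * i + 1)) ^ 126) (wrd 5 (n+1)) *
    (FreeGroup.lift (fun i => (ζ (3 * i + 2)) ^ 126) (wrd 5 (n+1)))⁻¹

def js (ζ : ℕ → G) (i : ℕ) : G := JJ m (tt m ζ) (ww ζ i)

def rr (ζ : ℕ → G) (n : ℕ) : G := CC m (js m ζ) n (js m ζ n)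

def kk (ζ : ℕ → G) (n : ℕ) : G := CC m (js m ζ) n (JJ m (tt m ζ) (vv ζ n * ww ζ n))

def BB (ζ : ℕ → G) (n : ℕ) : G := ct (rr m ζ n) (kk m ζ n)

def PB (B : ℕ → G) : ℕ → ℕ → G
  | 0, _ => 1
  | l+1, s => B s * PB B l (s+1)

def zz (x y : G) (j : ℕ) : G := (x ^ j)⁻¹ * ct x y * x ^ j

def wv (k : ℕ) (x y : G) : G :=
  ct y ((ct x y) ^ (2 * m)) * (ct x y) ^ (2 * m) * PB (BB m (zz x y)) k 0

end defs

section nat

variable {G G' : Type*} [Group G] [Group G'] (φ : G →* G') (m : ℕ)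

theorem map_ct (a b : G) : φ (ct a b) = ct (φ a) (φ b) := by simp [ct]

theorem map_JJ (a b : G) : φ (JJ m a b) = JJ m (φ a) (φ b) := by simp [JJ, map_ct]

theorem map_pp (a b : G) : φ (pp m a b) = pp m (φ a) (φ b) := by simp [pp]

theorem map_CC (j : ℕ → G) (n : ℕ) (b : G) :
    φ (CC m j n b) = CC m (fun i => φ (j i)) n (φ b) := by
  induction n generalizing b with
  | zero => rfl
  | succ n ih => simp only [CC, map_pp, ih]

theorem map_tt (ζ : ℕ → G) : φ (tt m ζ) = tt m (fun i => φ (ζ i)) := by simp [tt, map_ct]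

theorem map_ww (ζ : ℕ → G) (n : ℕ) : φ (ww ζ n) = ww (fun i => φ (ζ i)) n := rfl

theorem map_lift (a : ℕ → G) (w : F) :
    φ (FreeGroup.lift a w) = FreeGroup.lift (fun i => φ (a i)) w := by
  have : φ.comp (FreeGroup.lift a) = FreeGroup.lift (fun i => φ (a i)) := by
    ext i; simp
  rw [← this]; rfl

theorem map_vv (ζ : ℕ → G) (n : ℕ) : φ (vv ζ n) = vv (fun i => φ (ζ i)) n := by
  simp only [vv, map_mul, map_inv, map_lift, map_pow]

theorem map_js (ζ : ℕ → G) (n : ℕ) : φ (js m ζ n) = js m (fun i => φ (ζ i)) n := by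
  simp only [js, map_JJ, map_tt, map_ww]

theorem map_rr (ζ : ℕ → G) (n : ℕ) : φ (rr m ζ n) = rr m (fun i => φ (ζ i)) n := by
  simp only [rr, map_CC, map_js]

theorem map_kk (ζ : ℕ → G) (n : ℕ) : φ (kk m ζ n) = kk m (fun i => φ (ζ i)) n := by
  simp only [kk, map_CC, map_js, map_JJ, map_tt, map_mul, map_vv, map_ww]

theorem map_BB (ζ : ℕ → G) (n : ℕ) : φ (BB m ζ n) = BB m (fun i => φ (ζ i)) n := by
  simp only [BB, map_ct, map_rr, map_kk]

theorem map_PB (B : ℕ → G) (l s : ℕ) : φ (PB B l s) = PB (fun i => φ (B i)) l s := by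
  induction l generalizing s with
  | zero => simp [PB]
  | succ l ih => simp only [PB, map_mul, ih]

theorem map_zz (x y : G) (j : ℕ) : φ (zz x y j) = zz (φ x) (φ y) j := by
  simp [zz, map_ct]

theorem map_wv (k : ℕ) (x y : G) : φ (wv m k x y) = wv m k (φ x) (φ y) := by
  simp only [wv, map_mul, map_pow, map_ct, map_PB, map_BB, map_zz]

end nat

section prods

variable {G : Type*} [Group G]

theorem PB_one {B : ℕ → G} {l s : ℕ} (h : ∀ i, s ≤ i → i < s + l → B i = 1) : PB B l s = 1 := by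
  induction l generalizing s with
  | zero => rfl
  | succ l ih =>
    rw [PB, h s le_rfl (by omega), one_mul]
    exact ih (fun i h1 h2 => h i (by omega) (by omega))

theorem PB_last {B : ℕ → G} {l s : ℕ} (h : ∀ i, s ≤ i → i < s + l → B i = 1) :
    PB B (l+1) s = B (s + l) := by
  induction l generalizing s with
  | zero => simp [PB]
  | succ l ih =>
    rw [PB, h s le_rfl (by omega), one_mul, ih (fun i h1 h2 => h i (by omega) (by omega))]
    congr 1
    omega

theorem PB_commute {B : ℕ → G} {r : G} {l s : ℕ} (h : ∀ i, s ≤ i → Commute r (B i)) :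
    Commute r (PB B l s) := by
  induction l generalizing s with
  | zero => exact Commute.one_right r
  | succ l ih =>
    exact (h s le_rfl).mul_right (ih (fun i hi => h i (by omega)))

/-- the extraction lemma -/
theorem extract {B r : ℕ → G} {m q : ℕ} (hm : m = 2 * q + 1) (hB : ∀ i, (B i) ^ m = 1)
    (hinv : ∀ i, r i * B i * (r i)⁻¹ = (B i)⁻¹) (hc : ∀ i j, i < j → Commute (r i) (B j))
    {Z : G} (hZ : ∀ i, Commute (r i) Z) {l s : ℕ} (h : Z * PB B l s = 1) :
    Z = 1 ∧ ∀ i, s ≤ i → i < s + l → B i = 1 := by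
  induction l generalizing s with
  | zero =>
    refine ⟨by simpa [PB] using h, fun i h1 h2 => ?_⟩
    omega
  | succ l ih =>
    rw [PB] at h
    have hcom : Commute (r s) (PB B l (s+1)) :=
      PB_commute (fun i hi => hc s i (by omega))
    have h1 : r s * (Z * (B s * PB B l (s+1))) * (r s)⁻¹ = 1 := by rw [h]; group
    have h2 : r s * (Z * (B s * PB B l (s+1))) * (r s)⁻¹ = Z * ((B s)⁻¹ * PB B l (s+1)) := by
      have e1 : r s * (Z * (B s * PB B l (s+1))) * (r s)⁻¹ =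
          (r s * Z * (r s)⁻¹) * ((r s * B s * (r s)⁻¹) * (r s * PB B l (s+1) * (r s)⁻¹)) := by
        group
      rw [e1, hinv, (hZ s).eq, hcom.eq]
      group
    have h3 : Z * ((B s)⁻¹ * PB B l (s+1)) = Z * (B s * PB B l (s+1)) := by
      rw [← h2, h1, h]
    have h4 : (B s)⁻¹ = B s := mul_right_cancel (mul_left_cancel h3)
    have h5 : B s * B s = 1 := by
      nth_rewrite 1 [← h4]
      exact inv_mul_cancel _
    have h6 : B s = 1 := by
      have := hB s
      rw [hm, pow_succ, pow_mul, pow_two, h5, one_pow, one_mul] at this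
      exact this
    rw [h6, one_mul] at h
    obtain ⟨hZ1, hrest⟩ := ih h
    refine ⟨hZ1, fun i h1 h2 => ?_⟩
    rcases Nat.eq_or_lt_of_le h1 with h3 | h3
    · rw [← h3]; exact h6
    · exact hrest i h3 (by omega)

end prods

section invol

variable {G : Type*} [Group G]

/-- powers are inverted as well -/
theorem pow_inv_of {a b : G} (h : a * b * a⁻¹ = b⁻¹) (n : ℕ) : a * b ^ n * a⁻¹ = (b ^ n)⁻¹ := by
  rw [← conj_pow, h, inv_pow]

structure IsJ (t j : G) : Prop where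
  sq : j * j = 1
  com : Commute t j
  ex : ∃ c, c⁻¹ * t * c = t * j

variable {m q : ℕ}

theorem J1 (hm : m = 2 * q + 1) {t : G} (ht : t * t = 1)
    (hP : ∀ g, (t * (g⁻¹ * t * g)) ^ (2 * m) = 1) (g : G) : IsJ t (JJ m t g) := by
  have hti : t⁻¹ = t := inv_eq_of_mul_eq_one_left ht
  set d := t * (g⁻¹ * t * g) with hd
  have hct : ct t g = d := by rw [ct, hti, hd]; group
  have hdinv : t * d * t⁻¹ = d⁻¹ := by
    rw [hd, mul_inv_rev, mul_inv_rev, mul_inv_rev, inv_inv, hti]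
    calc t * (t * (g⁻¹ * t * g)) * t = (t * t) * (g⁻¹ * t * g) * t := by group
      _ = g⁻¹ * (t * g) * t := by rw [ht]; group
  have hd2 : d ^ m * d ^ m = 1 := by rw [← pow_add, ← two_mul]; exact hP g
  have hdm : (d ^ m)⁻¹ = d ^ m := inv_eq_of_mul_eq_one_left hd2
  unfold JJ
  rw [hct]
  refine ⟨hd2, ?_, ⟨g * d ^ q, ?_⟩⟩
  · have := pow_inv_of hdinv m
    rw [hdm] at this
    exact mul_inv_eq_iff_eq_mul.mp this
  · have e1 : g⁻¹ * t * g = t * d := by rw [hd, ← mul_assoc, ht, one_mul]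
    have e2 : (d ^ q)⁻¹ * t = t * d ^ q := by
      have := pow_inv_of hdinv q
      rw [← this]; group
    calc (g * d ^ q)⁻¹ * t * (g * d ^ q) = (d ^ q)⁻¹ * (g⁻¹ * t * g) * d ^ q := by group
      _ = (d ^ q)⁻¹ * (t * d) * d ^ q := by rw [e1]
      _ = ((d ^ q)⁻¹ * t) * (d * d ^ q) := by group
      _ = t * d ^ q * (d * d ^ q) := by rw [e2]
      _ = t * (d ^ q * d ^ (q + 1)) := by rw [pow_succ' d q]; group
      _ = t * d ^ m := by rw [← pow_add, hm]; congr 2; omega

theorem J2 {t : G} (ht : t * t = 1)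
    (hP : ∀ g, (t * (g⁻¹ * t * g)) ^ (2 * m) = 1) {a b : G} (ha : IsJ t a) (hb : IsJ t b) :
    (a * b) ^ (2 * m) = 1 := by
  obtain ⟨c, hc⟩ := ha.ex
  obtain ⟨e, he⟩ := hb.ex
  have h1 : a * b = (t * a) * (t * b) := by
    rw [ha.com.eq]
    calc a * b = a * (t * t) * b := by rw [ht, mul_one]
      _ = a * t * (t * b) := by group
  have h2 : a * b = c⁻¹ * (t * ((e * c⁻¹)⁻¹ * t * (e * c⁻¹))) * c := by
    rw [h1, ← hc, ← he]; group
  have h3 : a * b = c⁻¹ * (t * ((e * c⁻¹)⁻¹ * t * (e * c⁻¹))) * (c⁻¹)⁻¹ := by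
    rw [inv_inv]; exact h2
  rw [h3, conj_pow, hP, mul_one, mul_inv_cancel]

theorem pp_commute {x a b : G} (ha : Commute x a) (hb : Commute x b) : Commute x (pp m a b) :=
  ha.mul_right ((ha.mul_right hb).pow_right m)

theorem pp_self {a b : G} (ha : a * a = 1) (hb : b * b = 1) (hab : (a * b) ^ (2 * m) = 1) :
    Commute a (pp m a b) := by
  have hai : a⁻¹ = a := inv_eq_of_mul_eq_one_left ha
  have hbi : b⁻¹ = b := inv_eq_of_mul_eq_one_left hb
  have h1 : a * (a * b) * a⁻¹ = (a * b)⁻¹ := by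
    rw [mul_inv_rev, hai, hbi, ← mul_assoc, ha, one_mul]
  have h2 := pow_inv_of h1 m
  have h3 : (a * b) ^ m * (a * b) ^ m = 1 := by rw [← pow_add, ← two_mul]; exact hab
  rw [inv_eq_of_mul_eq_one_left h3] at h2
  have h4 : Commute a ((a * b) ^ m) := mul_inv_eq_iff_eq_mul.mp h2
  exact (Commute.refl a).mul_right h4

theorem J3 (hm : m = 2 * q + 1) {t : G} (ht : t * t = 1)
    (hP : ∀ g, (t * (g⁻¹ * t * g)) ^ (2 * m) = 1) {a b : G} (ha : IsJ t a) (hb : IsJ t b) :
    IsJ t (pp m a b) := by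
  have hab := J2 ht hP ha hb
  have hai : a⁻¹ = a := inv_eq_of_mul_eq_one_left ha.sq
  have hbi : b⁻¹ = b := inv_eq_of_mul_eq_one_left hb.sq
  have h1 : b * (a * b) * b⁻¹ = (a * b)⁻¹ := by
    rw [mul_inv_rev, hai, hbi]
    calc b * (a * b) * b = b * a * (b * b) := by group
      _ = b * a := by rw [hb.sq, mul_one]
  have e2 : ((a * b) ^ q)⁻¹ * b = b * (a * b) ^ q := by
    rw [← pow_inv_of h1 q, inv_mul_cancel_right]
  -- pp a b = b conjugated by (ab)^q
  have h2 : pp m a b = ((a * b) ^ q)⁻¹ * b * (a * b) ^ q := by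
    rw [e2]
    have h3 : b * (a * b) ^ q * (a * b) ^ q = b * (a * b) ^ (2 * q) := by
      rw [mul_assoc, ← pow_add, ← two_mul]
    rw [h3]
    unfold pp
    have h4 : (a * b) ^ m = (a * b) * (a * b) ^ (2 * q) := by rw [hm, pow_succ']
    rw [h4]
    calc a * (a * b * (a * b) ^ (2 * q)) = (a * a) * b * (a * b) ^ (2 * q) := by
          simp only [mul_assoc]
      _ = b * (a * b) ^ (2 * q) := by rw [ha.sq, one_mul]
  have hth : Commute t ((a * b) ^ q) := (ha.com.mul_right hb.com).pow_right q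
  rw [h2]
  set h := (a * b) ^ q with hh
  refine ⟨?_, ?_, ?_⟩
  · calc h⁻¹ * b * h * (h⁻¹ * b * h) = h⁻¹ * (b * b) * h := by group
      _ = 1 := by rw [hb.sq]; group
  · exact (hth.inv_right.mul_right hb.com).mul_right hth
  · obtain ⟨c, hc⟩ := hb.ex
    refine ⟨c * h, ?_⟩
    calc (c * h)⁻¹ * t * (c * h) = h⁻¹ * (c⁻¹ * t * c) * h := by group
      _ = h⁻¹ * (t * b) * h := by rw [hc]
      _ = (h⁻¹ * t) * (b * h) := by group
      _ = (t * h⁻¹) * (b * h) := by rw [(hth.inv_right).eq]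
      _ = t * (h⁻¹ * b * h) := by group

theorem CC_spec (hm : m = 2 * q + 1) {t : G} (ht : t * t = 1)
    (hP : ∀ g, (t * (g⁻¹ * t * g)) ^ (2 * m) = 1) {j : ℕ → G} (hj : ∀ i, IsJ t (j i)) (n : ℕ)
    {b : G} (hb : IsJ t b) :
    IsJ t (CC m j n b) ∧ ∀ i, i < n → Commute (CC m j i (j i)) (CC m j n b) := by
  induction n generalizing b with
  | zero => exact ⟨hb, fun i hi => absurd hi (Nat.not_lt_zero i)⟩
  | succ n ih =>
    obtain ⟨h1, h2⟩ := ih (hj n)
    obtain ⟨h3, h4⟩ := ih hb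
    refine ⟨J3 hm ht hP h1 h3, fun i hi => ?_⟩
    rcases Nat.lt_succ_iff_lt_or_eq.mp hi with h5 | h5
    · exact pp_commute (h2 i h5) (h4 i h5)
    · rw [h5]
      exact pp_self h1.sq h3.sq (J2 ht hP h1 h3)

end invol

section merge

variable {G : Type*} [Group G] {m q : ℕ}

theorem BB_comm {A : Type*} [Group A] (hA : ∀ a b : A, a * b = b * a) (ζ : ℕ → A) (n : ℕ) :
    BB m ζ n = 1 := by
  unfold BB ct
  rw [hA (rr m ζ n)⁻¹ (kk m ζ n)⁻¹]
  group

/-- the words vanish on sequences in a cyclic subgroup -/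
theorem BB_zpowers {z : G} {ζ : ℕ → G} (h : ∀ i, ζ i ∈ Subgroup.zpowers z) (n : ℕ) :
    BB m ζ n = 1 := by
  have h1 := map_BB (Subgroup.zpowers z).subtype m (fun i => ⟨ζ i, h i⟩) n
  rw [BB_comm, map_one] at h1
  · exact h1.symm
  · rintro ⟨a, ha⟩ ⟨b, hb⟩
    obtain ⟨k, rfl⟩ := Subgroup.mem_zpowers_iff.mp ha
    obtain ⟨l, rfl⟩ := Subgroup.mem_zpowers_iff.mp hb
    apply Subtype.ext
    change z ^ k * z ^ l = z ^ l * z ^ k
    rw [← zpow_add, ← zpow_add, add_comm]

/-- the value of `rr` commutes with everything commuting with the sequence -/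
theorem rr_commute {Z : G} {ζ : ℕ → G} (h : ∀ i, Commute Z (ζ i)) (n : ℕ) :
    Commute Z (rr m ζ n) := by
  have hm : ∀ i, ζ i ∈ Subgroup.centralizer ({Z} : Set G) := by
    intro i
    rw [Subgroup.mem_centralizer_singleton_iff]
    exact (h i).symm.eq
  have h1 := map_rr (Subgroup.centralizer ({Z} : Set G)).subtype m (fun i => ⟨ζ i, hm i⟩) n
  have h2 := (rr m (fun i => (⟨ζ i, hm i⟩ : Subgroup.centralizer ({Z} : Set G))) n).2
  rw [Subgroup.mem_centralizer_singleton_iff] at h2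
  change (Subgroup.centralizer ({Z} : Set G)).subtype _ = rr m ζ n at h1
  rw [← h1]
  exact (show Commute _ _ from h2).symm

theorem ct_inv (x y : G) : ct y x = (ct x y)⁻¹ := by unfold ct; group

theorem ct_mul (x y : G) : ct x (x * y) = ct x y := by unfold ct; group

theorem zz_mul (x y : G) : zz x (x * y) = zz x y := by
  funext j; unfold zz; rw [ct_mul]

/-- consequences of the law: the power of the commutator is central in `⟨x, y⟩` -/
theorem law_central {k : ℕ} (hl : ∀ x y : G, wv m k x y = 1) (x y : G) :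
    Commute x ((ct x y) ^ (2 * m)) := by
  have h1 := hl x y
  have h2 := hl x (x * y)
  unfold wv at h1 h2
  rw [zz_mul, ct_mul] at h2
  rw [← h1, mul_assoc, mul_assoc] at h2
  have h3 := mul_right_cancel h2
  set Z := (ct x y) ^ (2 * m) with hZ
  unfold ct at h3
  have h4 : Z⁻¹ * x = x * Z⁻¹ := by
    have e : (x * y)⁻¹ * Z⁻¹ * (x * y) = y⁻¹ * Z⁻¹ * y := mul_right_cancel h3
    calc Z⁻¹ * x = (x * y) * ((x * y)⁻¹ * Z⁻¹ * (x * y)) * y⁻¹ := by group
      _ = (x * y) * (y⁻¹ * Z⁻¹ * y) * y⁻¹ := by rw [e]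
      _ = x * Z⁻¹ := by group
  have h5 : Commute x Z⁻¹ := h4.symm
  exact Commute.inv_right_iff.mp h5

theorem law_central' {k : ℕ} (hl : ∀ x y : G, wv m k x y = 1) (x y : G) :
    Commute y ((ct x y) ^ (2 * m)) := by
  have h := law_central hl y x
  rw [ct_inv, inv_pow] at h
  exact Commute.inv_right_iff.mp h

theorem law_main {k : ℕ} (hl : ∀ x y : G, wv m k x y = 1) (x y : G) :
    (ct x y) ^ (2 * m) * PB (BB m (zz x y)) k 0 = 1 := by
  have h := hl x y
  unfold wv at h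
  have h1 : ct y ((ct x y) ^ (2 * m)) = 1 := by
    have := (law_central' hl x y).eq
    set Z := (ct x y) ^ (2 * m)
    unfold ct
    calc y⁻¹ * Z⁻¹ * y * Z = y⁻¹ * Z⁻¹ * (y * Z) := by group
      _ = y⁻¹ * Z⁻¹ * (Z * y) := by rw [this]
      _ = 1 := by group
  rwa [h1, one_mul] at h

theorem P1' {k : ℕ} (hl : ∀ x y : G, wv m k x y = 1) {t g : G}
    (h : Commute (t * t) g) : (ct t g) ^ (2 * m) = 1 := by
  have hinv : t⁻¹ * ct t g * t = (ct t g)⁻¹ := by
    unfold ct
    have h1 : (t * t)⁻¹ * g⁻¹ = g⁻¹ * (t * t)⁻¹ := (h.inv_inv).eq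
    calc t⁻¹ * (t⁻¹ * g⁻¹ * t * g) * t = ((t * t)⁻¹ * g⁻¹) * t * g * t := by group
      _ = (g⁻¹ * (t * t)⁻¹) * t * g * t := by rw [h1]
      _ = (t⁻¹ * g⁻¹ * t * g)⁻¹ := by group
  have hz : ∀ j, zz t g j ∈ Subgroup.zpowers (ct t g) := by
    intro j
    unfold zz
    induction j with
    | zero => simp
    | succ j ih =>
      have e : (t ^ (j+1))⁻¹ * ct t g * t ^ (j+1) = t⁻¹ * ((t ^ j)⁻¹ * ct t g * t ^ j) * t := by
        rw [pow_succ]; group
      rw [e]
      obtain ⟨l, hl⟩ := Subgroup.mem_zpowers_iff.mp ih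
      rw [← hl]
      have e2 : t⁻¹ * (ct t g) ^ l * t = (ct t g)⁻¹ ^ l := by
        rw [← hinv]
        have := conj_zpow (i := l) (a := t⁻¹) (b := ct t g)
        rw [inv_inv] at this
        exact this.symm
      rw [e2]
      exact Subgroup.zpow_mem _ (Subgroup.inv_mem _ (Subgroup.mem_zpowers _)) _
  have h1 := law_main hl t g
  rw [PB_one (fun i _ _ => BB_zpowers hz i), mul_one] at h1
  exact h1

theorem zz_commute {Z x y : G} (hx : Commute Z x) (hy : Commute Z y) (j : ℕ) :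
    Commute Z (zz x y j) := by
  have h1 : Commute Z (ct x y) :=
    ((hx.inv_right.mul_right hy.inv_right).mul_right hx).mul_right hy
  exact ((hx.pow_right j).inv_right.mul_right h1).mul_right (hx.pow_right j)

theorem merge (hm : m = 2 * q + 1) {k : ℕ} (hl : ∀ x y : G, wv m k x y = 1) (x y : G) :
    (ct x y) ^ (2 * m) = 1 ∧ ∀ i, i < k → BB m (zz x y) i = 1 := by
  set ζ := zz x y with hζ
  set Z := (ct x y) ^ (2 * m) with hZ
  have hZc : ∀ j, Commute Z (ζ j) :=
    zz_commute (law_central hl x y).symm (law_central' hl x y).symm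
  have hz0 : ζ 0 = ct x y := by simp [hζ, zz]
  set t := tt m ζ with htdef
  have ht : t * t = 1 := by
    rw [htdef]
    unfold tt
    rw [← pow_add, ← two_mul]
    apply P1' hl
    rw [← pow_add, ← two_mul, hz0]
    exact hZc 3
  have hti : t⁻¹ = t := inv_eq_of_mul_eq_one_left ht
  have hP : ∀ g, (t * (g⁻¹ * t * g)) ^ (2 * m) = 1 := by
    intro g
    have h := P1' hl (t := t) (g := g) (by rw [ht]; exact Commute.one_left g)
    have e : ct t g = t * (g⁻¹ * t * g) := by unfold ct; rw [hti]; group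
    rwa [e] at h
  have hj : ∀ i, IsJ t (js m ζ i) := fun i => J1 hm ht hP _
  have hr : ∀ n, IsJ t (rr m ζ n) ∧ ∀ i, i < n → Commute (rr m ζ i) (rr m ζ n) :=
    fun n => CC_spec hm ht hP hj n (hj n)
  have hk : ∀ n, IsJ t (kk m ζ n) ∧ ∀ i, i < n → Commute (rr m ζ i) (kk m ζ n) :=
    fun n => CC_spec hm ht hP hj n (J1 hm ht hP _)
  have hBsq : ∀ n, BB m ζ n = (rr m ζ n * kk m ζ n) * (rr m ζ n * kk m ζ n) := by
    intro n
    unfold BB ct
    rw [inv_eq_of_mul_eq_one_left (hr n).1.sq, inv_eq_of_mul_eq_one_left (hk n).1.sq]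
    group
  have hex := extract (B := BB m ζ) (r := rr m ζ) hm (Z := Z) (l := k) (s := 0)
    (by
      intro i
      rw [hBsq i, ← pow_two, ← pow_mul]
      exact J2 ht hP (hr i).1 (hk i).1)
    (by
      intro i
      have hri := inv_eq_of_mul_eq_one_left (hr i).1.sq
      have hki := inv_eq_of_mul_eq_one_left (hk i).1.sq
      rw [hBsq i, mul_inv_rev, mul_inv_rev, hri, hki]
      calc rr m ζ i * (rr m ζ i * kk m ζ i * (rr m ζ i * kk m ζ i)) * rr m ζ i
          = (rr m ζ i * rr m ζ i) * (kk m ζ i * rr m ζ i * (kk m ζ i * rr m ζ i)) := by group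
        _ = kk m ζ i * rr m ζ i * (kk m ζ i * rr m ζ i) := by rw [(hr i).1.sq, one_mul])
    (by
      intro i j hij
      have h1 := (hr j).2 i hij
      have h2 := (hk j).2 i hij
      rw [hBsq j]
      exact (h1.mul_right h2).mul_right (h1.mul_right h2))
    (fun i => (rr_commute hZc i).symm)
    (law_main hl x y)
  refine ⟨hex.1, fun i hi => hex.2 i (Nat.zero_le i) (by omega)⟩

theorem merge_law (hm : m = 2 * q + 1) {k : ℕ} (hl : ∀ x y : G, wv m (k+1) x y = 1) (x y : G) :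
    wv m k x y = 1 := by
  obtain ⟨h1, h2⟩ := merge hm hl x y
  unfold wv
  rw [h1, PB_one (fun i _ hi => h2 i (by omega))]
  unfold ct
  group

end merge

end Pool.Agent.Asc61
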