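import Mathlib
import Pool.Agent.Asc61.Basic

set_option autoImplicit false
set_option linter.unusedSectionVars false
set_option linter.unusedVariables false

/-!
# The test groups: iterated wreath products
-/

namespace Pool.Agent.Asc61

open Pool.Agent.LawsFI (F)
open Pool.Agent.LawsFL (wrd GN GN_wrd GN_not_wrd GN_series)

/-- the unrestricted wreath product of `A` with `T` -/
@[ext] structure W (A T : Type) where
  f : T → A
  t : T

namespace W

variable {A T : Type} [Group A] [Group T]

instance : Mul (W A T) := ⟨fun x y => ⟨fun s => x.f s * y.f (s * x.t), x.t * y.t⟩⟩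
instance : One (W A T) := ⟨⟨fun _ => 1, 1⟩⟩
instance : Inv (W A T) := ⟨fun x => ⟨fun s => (x.f (s * x.t⁻¹))⁻¹, x.t⁻¹⟩⟩

theorem mul_f (x y : W A T) (s : T) : (x * y).f s = x.f s * y.f (s * x.t) := rfl
theorem mul_t (x y : W A T) : (x * y).t = x.t * y.t := rfl
theorem one_f (s : T) : (1 : W A T).f s = 1 := rfl
theorem one_t : (1 : W A T).t = 1 := rfl
theorem inv_f (x : W A T) (s : T) : (x⁻¹).f s = (x.f (s * x.t⁻¹))⁻¹ := rfl
theorem inv_t (x : W A T) : (x⁻¹).t = x.t⁻¹ := rfl

instance : Group (W A T) := Group.ofLeftAxioms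
  (by
    intro x y z
    ext
    · simp only [mul_f, mul_t, mul_assoc]
    · simp only [mul_t, mul_assoc])
  (by
    intro x
    ext
    · simp only [mul_f, one_f, one_t, mul_one, one_mul]
    · simp only [mul_t, one_t, one_mul])
  (by
    intro x
    ext
    · simp only [mul_f, inv_f, one_f, inv_t, inv_mul_cancel]
    · simp only [mul_t, inv_t, one_t, inv_mul_cancel])

def proj : W A T →* T where
  toFun := fun x => x.t
  map_one' := rfl
  map_mul' := fun _ _ => rfl

def base : (T → A) →* W A T where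
  toFun := fun b => ⟨b, 1⟩
  map_one' := rfl
  map_mul' := fun b b' => by
    ext s
    · rw [mul_f, mul_one]; rfl
    · rw [mul_t, mul_one]

def top : T →* W A T where
  toFun := fun a => ⟨fun _ => 1, a⟩
  map_one' := rfl
  map_mul' := fun b b' => by
    ext s
    · rw [mul_f, mul_one]
    · rw [mul_t]

theorem base_inj : Function.Injective (base : (T → A) →* W A T) := by
  intro b b' h
  exact congrArg W.f h

theorem eq_base {x : W A T} (h : x.t = 1) : x = base x.f := by
  ext s
  · rfl
  · exact h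

theorem proj_base (b : T → A) : proj (base b) = 1 := rfl

theorem conj_base (a : T) (b : T → A) :
    (top a)⁻¹ * base b * top a = base (fun s => b (s * a⁻¹)) := by
  ext s
  · rw [← map_inv]
    change (1 * b (s * a⁻¹)) * 1 = b (s * a⁻¹)
    rw [one_mul, mul_one]
  · rw [← map_inv]
    change a⁻¹ * 1 * a = 1
    group

theorem pow_exp {n k : ℕ} (hA : ∀ a : A, a ^ n = 1) (hT : ∀ t : T, t ^ k = 1) (x : W A T) :
    x ^ (k * n) = 1 := by
  rw [pow_mul]
  have h : (x ^ k).t = 1 := by
    have := map_pow (proj (A := A) (T := T)) x k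
    change (x ^ k).t = x.t ^ k at this
    rw [this, hT]
  rw [eq_base h, ← map_pow]
  have : (x ^ k).f ^ n = 1 := by
    funext s
    exact hA _
  rw [this, map_one]

end W

/-! ### the group of exponent six -/

abbrev C3 : Type := Multiplicative (ZMod 3)

abbrev H : Type := W ℤˣ C3

theorem H_pow (h : H) : h ^ 6 = 1 := by
  have := W.pow_exp (A := ℤˣ) (T := C3) (n := 2) (k := 3) (by decide) (by decide) h
  exact this

def gc : C3 := Multiplicative.ofAdd 1

def e0 : C3 → ℤˣ := fun i => if i = 1 then -1 else 1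
def tF : C3 → ℤˣ := fun i => if i = gc ^ 2 then 1 else -1
def fF : C3 → ℤˣ := fun i => if i = gc then 1 else -1

theorem tF_eq : (fun i => (e0 i)⁻¹ * e0 (i * gc⁻¹)) = tF := by
  funext i
  revert i
  decide

theorem fF_eq : (fun i => (tF i)⁻¹ * tF (i * gc⁻¹)) = fF := by
  funext i
  revert i
  decide

def hE : H := W.base e0
def hT : H := W.base tF
def hF : H := W.base fF
def hO : H := W.top gc

theorem base_sq (b : C3 → ℤˣ) : (W.base b : H) * W.base b = 1 := by
  rw [← map_mul]
  have : b * b = 1 := by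
    funext i
    change b i * b i = 1
    rw [← pow_two]
    exact Int.units_sq _
  rw [this, map_one]

theorem ct_base (b : C3 → ℤˣ) :
    ct (W.base b : H) hO = W.base (fun i => (b i)⁻¹ * b (i * gc⁻¹)) := by
  have h := W.conj_base gc b
  unfold ct hO
  rw [mul_assoc, mul_assoc, ← mul_assoc (W.top gc)⁻¹, h, ← map_inv, ← map_mul]
  rfl

theorem pow_odd {K : Type*} [Group K] {a : K} (ha : a * a = 1) {m q : ℕ} (hm : m = 2 * q + 1) :
    a ^ m = a := by
  rw [hm, pow_succ, pow_mul, pow_two, ha, one_pow, one_mul]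

/-- the sign function -/
def lam (s : H) : ℤˣ := s.f (gc ^ 2 * s.t⁻¹)

theorem lam_base (s : H) (b : C3 → ℤˣ) : lam (s * W.base b) = lam s * b (gc ^ 2) := by
  unfold lam
  rw [W.mul_f, W.mul_t]
  change s.f (gc ^ 2 * (s.t * 1)⁻¹) * b (gc ^ 2 * (s.t * 1)⁻¹ * s.t) = _
  rw [mul_one, inv_mul_cancel_right]

theorem lam_T (s : H) : lam (s * hT) = lam s := by
  unfold hT
  rw [lam_base]
  have : tF (gc ^ 2) = 1 := by decide
  rw [this, mul_one]

theorem lam_F (s : H) : lam (s * hF) = - lam s := by
  unfold hF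
  rw [lam_base]
  have : fF (gc ^ 2) = -1 := by decide
  rw [this, mul_neg, mul_one]

/-! ### an abstract computation -/

theorem BB_calc {K : Type*} [Group K] {t f o v : K} {m q : ℕ} (hm : m = 2 * q + 1)
    (ht : t * t = 1) (hf : f * f = 1) (hto : ct t o = f)
    (hvt : Commute t (o⁻¹ * v * o)) (hvf : f * (o⁻¹ * v * o) * f = (o⁻¹ * v * o)⁻¹) :
    JJ m t o = f ∧ (JJ m t (v * o)) * (JJ m t (v * o)) = 1 ∧
      ct f (JJ m t (v * o)) = (o⁻¹ * v * o) ^ 4 := by
  have hti : t⁻¹ = t := inv_eq_of_mul_eq_one_left ht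
  have hfi : f⁻¹ = f := inv_eq_of_mul_eq_one_left hf
  have h1 : JJ m t o = f := by unfold JJ; rw [hto, pow_odd hf hm]
  set v' := o⁻¹ * v * o with hv'
  have e1 : o⁻¹ * t * o = t * f := by
    rw [← hto]; unfold ct; rw [hti]
    calc o⁻¹ * t * o = (t * t) * (o⁻¹ * t * o) := by rw [ht, one_mul]
      _ = t * (t * o⁻¹ * t * o) := by group
  have e2 : v'⁻¹ * f = f * v' := by
    rw [← hvf]
    calc f * v' * f * f = f * v' * (f * f) := by group
      _ = f * v' := by rw [hf, mul_one]
  have e3 : ct t (v * o) = f * (v' * v') := by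
    unfold ct
    calc t⁻¹ * (v * o)⁻¹ * t * (v * o)
        = t⁻¹ * (v'⁻¹ * (o⁻¹ * t * o) * v') := by rw [hv']; group
      _ = t⁻¹ * (v'⁻¹ * (t * f) * v') := by rw [e1]
      _ = t⁻¹ * ((v'⁻¹ * t) * f * v') := by group
      _ = t⁻¹ * ((t * v'⁻¹) * f * v') := by rw [(hvt.inv_right).symm.eq]
      _ = (v'⁻¹ * f) * v' := by group
      _ = f * v' * v' := by rw [e2]
      _ = f * (v' * v') := by group
  have e4 : f * (v' * v') * (f * (v' * v')) = 1 := by
    calc f * (v' * v') * (f * (v' * v')) = (f * v' * v' * f) * (v' * v') := by group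
      _ = ((v'⁻¹ * f) * v' * f) * (v' * v') := by rw [e2]
      _ = (v'⁻¹ * (f * v' * f)) * (v' * v') := by group
      _ = 1 := by rw [hvf]; group
  have e5 : JJ m t (v * o) = f * (v' * v') := by
    unfold JJ
    rw [e3, pow_odd e4 hm]
  refine ⟨h1, by rw [e5]; exact e4, ?_⟩
  rw [e5]
  unfold ct
  have e6 : (f * (v' * v'))⁻¹ = f * (v' * v') := inv_eq_of_mul_eq_one_left e4
  rw [e6, hfi]
  calc f * (f * (v' * v')) * f * (f * (v' * v'))
      = (f * f) * (v' * v') * (f * f) * (v' * v') := by group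
    _ = v' ^ 4 := by rw [hf]; simp [pow_succ, mul_assoc]

theorem CC_one {K : Type*} [Group K] {m q : ℕ} (hm : m = 2 * q + 1) {j : ℕ → K} {n : ℕ}
    (hj : ∀ i, i < n → j i = 1) {b : K} (hb : b * b = 1) : CC m j n b = b := by
  induction n generalizing b with
  | zero => rfl
  | succ n ih =>
    have ih' : ∀ {b : K}, b * b = 1 → CC m j n b = b := fun {b} hb =>
      ih (fun i hi => hj i (by omega)) hb
    rw [CC, hj n (by omega), ih' (one_mul 1), ih' hb]
    unfold pp
    rw [one_mul, one_mul, pow_odd hb hm]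

/-! ### the coefficient groups -/

instance fact5 : Fact (Nat.Prime 5) := ⟨by norm_num⟩

abbrev Gq (q : ℕ) : Type := GN 5 (q + 1 + 1)

theorem Gq_exp (q : ℕ) (x : Gq q) : x ^ 125 = 1 := by
  obtain ⟨G₁, G₂, -, -, -, -, h1, -, h2, -, h3⟩ := GN_series (p := 5) (q + 1 + 1)
  have e : x ^ 125 = ((x ^ 5) ^ 5) ^ 5 := by rw [← pow_mul, ← pow_mul]
  rw [e]
  exact h1 _ (h2 _ (h3 _))

theorem Gq_law {q r : ℕ} (h : r ≠ q) (φ : F →* Gq q) : φ (wrd 5 (r + 1)) = 1 :=
  GN_wrd (by omega) φ

theorem Gq_not (q : ℕ) : ∃ x : ℕ → Gq q, FreeGroup.lift x (wrd 5 (q + 1)) ≠ 1 := by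
  obtain ⟨φ, hφ⟩ := GN_not_wrd (p := 5) (N := q + 1) (by omega)
  refine ⟨fun i => φ (FreeGroup.of i), ?_⟩
  have : FreeGroup.lift (fun i => φ (FreeGroup.of i)) = φ := by
    apply FreeGroup.ext_hom
    intro i
    simp
  rw [this]
  exact hφ

/-! ### the middle groups -/

abbrev Sq (q : ℕ) : Type := W (Gq q) H

theorem Sq_exp (q : ℕ) (x : Sq q) : x ^ (2 * 375) = 1 := by
  have := W.pow_exp (A := Gq q) (T := H) (n := 125) (k := 6) (Gq_exp q) H_pow x
  exact this

theorem Sq_pow_t (q : ℕ) (x : Sq q) : (x ^ 126).t = 1 := by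
  have := map_pow (W.proj (A := Gq q) (T := H)) x 126
  change (x ^ 126).t = x.t ^ 126 at this
  rw [this, show (126 : ℕ) = 6 * 21 from rfl, pow_mul, H_pow, one_pow]

theorem lift_base {A T : Type} [Group A] [Group T] (a : ℕ → T → A) (w : F) :
    FreeGroup.lift (fun i => (W.base (a i) : W A T)) w =
      W.base (fun s => FreeGroup.lift (fun i => a i s) w) := by
  have h1 := map_lift (W.base : (T → A) →* W A T) a w
  rw [← h1]
  congr 1
  funext s
  exact map_lift (Pi.evalMonoidHom (fun _ : T => A) s) a w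

theorem Sq_law {q r : ℕ} (h : r ≠ q) (a : ℕ → Sq q) :
    FreeGroup.lift (fun i => (a i) ^ 126) (wrd 5 (r + 1)) = 1 := by
  have e : (fun i => (a i) ^ 126) = fun i => (W.base ((a i) ^ 126).f : Sq q) := by
    funext i
    exact W.eq_base (Sq_pow_t q _)
  rw [e, lift_base]
  have : (fun s : H => FreeGroup.lift (fun i => ((a i) ^ 126).f s) (wrd 5 (r + 1))) = 1 := by
    funext s
    exact Gq_law h _
  rw [this, map_one]

theorem Sq_vv {q r : ℕ} (h : r ≠ q) (ζ : ℕ → Sq q) : vv ζ r = 1 := by
  unfold vv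
  rw [Sq_law h (fun i => ζ (3 * i + 1)), Sq_law h (fun i => ζ (3 * i + 2)), inv_one, mul_one]

theorem Sq_BB {q r : ℕ} (m : ℕ) (h : r ≠ q) (ζ : ℕ → Sq q) : BB m ζ r = 1 := by
  unfold BB kk rr js
  rw [Sq_vv h, one_mul]
  unfold ct
  group

/-- the critical tuple -/
noncomputable def cc (q : ℕ) (x : ℕ → Gq q) (n : ℕ) : Sq q :=
  if n % 3 = 1 then W.base (fun s => if lam (s * hO) = 1 then x (n / 3) else 1)
  else if n % 3 = 2 then W.base (fun s => if lam (s * hO) = 1 then 1 else x (n / 3))
  else if n = 0 then W.top hE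
  else if n = 3 then W.top hO
  else if n = 3 * (q + 2) then W.top hO
  else 1

theorem eq_one_of_pows {K : Type*} [Group K] {g : K} (h2 : g ^ 4 = 1) (h4 : g ^ 125 = 1) :
    g = 1 := by
  have h := pow_gcd_eq_one.mpr ⟨h2, h4⟩
  have e : Nat.gcd 4 125 = 1 := by decide
  rw [e, pow_one] at h
  exact h

theorem Sq_crit (q : ℕ) {m e : ℕ} (hm : m = 2 * e + 1) : ∃ c : ℕ → Sq q, BB m c q ≠ 1 := by
  obtain ⟨x, hx⟩ := Gq_not q
  refine ⟨cc q x, ?_⟩
  set g := FreeGroup.lift x (wrd 5 (q + 1)) with hg
  have c0 : cc q x 0 = W.top hE := rfl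
  have c3 : cc q x 3 = W.top hO := rfl
  have cw : ∀ i, i < q → ww (cc q x) i = 1 := by
    intro i hi
    unfold ww cc
    rw [if_neg (by omega), if_neg (by omega), if_neg (by omega), if_neg (by omega),
      if_neg (by omega)]
  have cq : ww (cc q x) q = W.top hO := by
    unfold ww cc
    rw [if_neg (by omega), if_neg (by omega), if_neg (by omega), if_neg (by omega), if_pos rfl]
  have c1 : ∀ i, cc q x (3 * i + 1) ^ 126 =
      W.base (fun s => if lam (s * hO) = 1 then x i else 1) := by
    intro i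
    have e : cc q x (3 * i + 1) = W.base (fun s => if lam (s * hO) = 1 then x i else 1) := by
      unfold cc
      rw [if_pos (by omega)]
      have : (3 * i + 1) / 3 = i := by omega
      rw [this]
    rw [e, ← map_pow]
    congr 1
    funext s
    rw [Pi.pow_apply, show (126 : ℕ) = 125 + 1 from rfl, pow_succ, Gq_exp, one_mul]
  have c2 : ∀ i, cc q x (3 * i + 2) ^ 126 =
      W.base (fun s => if lam (s * hO) = 1 then 1 else x i) := by
    intro i
    have e : cc q x (3 * i + 2) = W.base (fun s => if lam (s * hO) = 1 then 1 else x i) := by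
      unfold cc
      rw [if_neg (by omega), if_pos (by omega)]
      have : (3 * i + 2) / 3 = i := by omega
      rw [this]
    rw [e, ← map_pow]
    congr 1
    funext s
    rw [Pi.pow_apply, show (126 : ℕ) = 125 + 1 from rfl, pow_succ, Gq_exp, one_mul]
  -- the value of `vv`
  have hv : vv (cc q x) q = W.base (fun s => if lam (s * hO) = 1 then g else g⁻¹) := by
    unfold vv
    simp only [c1, c2]
    rw [lift_base, lift_base, ← map_inv, ← map_mul]
    congr 1
    funext s
    change FreeGroup.lift (fun i => if lam (s * hO) = 1 then x i else 1) (wrd 5 (q + 1)) *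
      (FreeGroup.lift (fun i => if lam (s * hO) = 1 then 1 else x i) (wrd 5 (q + 1)))⁻¹ = _
    have h1 : FreeGroup.lift (fun _ : ℕ => (1 : Gq q)) (wrd 5 (q + 1)) = 1 := by
      have := map_lift (1 : Gq q →* Gq q) (fun _ => 1) (wrd 5 (q + 1))
      simpa using this.symm
    by_cases h : lam (s * hO) = 1
    · simp only [h, if_true]
      rw [h1, inv_one, mul_one]
    · simp only [h, if_false]
      rw [h1, one_mul]
  -- the involution `t`
  have ht : tt m (cc q x) = W.top hT := by
    unfold tt
    have h1 : hE ^ m = hE := pow_odd (base_sq _) hm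
    have h2 : ct hE hO = hT := by
      unfold hE hT
      rw [ct_base, tF_eq]
    have h3 : hT ^ m = hT := pow_odd (base_sq _) hm
    rw [c0, c3, ← map_pow, h1, ← map_ct, h2, ← map_pow, h3]
  have htf : ct hT hO = hF := by
    unfold hT hF
    rw [ct_base, fF_eq]
  have hjs : ∀ i, i < q → js m (cc q x) i = 1 := by
    intro i hi
    unfold js JJ
    rw [cw i hi]
    unfold ct
    simp
  clear_value g
  -- the calculation
  set t : Sq q := W.top hT with htd
  set f : Sq q := W.top hF with hfd
  set o : Sq q := W.top hO with hod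
  set v := vv (cc q x) q with hvd
  have hv' : o⁻¹ * v * o = W.base (fun s => if lam s = 1 then g else g⁻¹) := by
    rw [hv, hod, W.conj_base]
    congr 1
    funext s
    rw [inv_mul_cancel_right]
  have key := BB_calc (t := t) (f := f) (o := o) (v := v) hm
    (by rw [htd, ← map_mul, hT, base_sq, map_one])
    (by rw [hfd, ← map_mul, hF, base_sq, map_one])
    (by rw [htd, hod, hfd, ← map_ct, htf])
    (by
      rw [hv', htd]
      change W.top hT * W.base _ = W.base _ * W.top hT
      have h := W.conj_base hT (A := Gq q) (fun s => if lam s = 1 then g else g⁻¹)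
      have e : (fun s => (fun s => if lam s = 1 then g else g⁻¹) (s * hT⁻¹)) =
          (fun s => if lam s = 1 then g else g⁻¹) := by
        funext s
        have : lam (s * hT⁻¹) = lam s := by
          conv_rhs => rw [← inv_mul_cancel_right s hT]
          rw [lam_T]
        simp only [this]
      rw [e] at h
      nth_rewrite 1 [← h]
      group)
    (by
      rw [hv', hfd]
      have h := W.conj_base hF (A := Gq q) (fun s => if lam s = 1 then g else g⁻¹)
      have hfi : (W.top hF : Sq q)⁻¹ = W.top hF := by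
        apply inv_eq_of_mul_eq_one_left
        rw [← map_mul, hF, base_sq, map_one]
      rw [hfi] at h
      rw [h, ← map_inv]
      congr 1
      funext s
      have h2 : lam (s * hF⁻¹) = - lam s := by
        conv_rhs => rw [← inv_mul_cancel_right s hF]
        rw [lam_F, neg_neg]
      change (if lam (s * hF⁻¹) = 1 then g else g⁻¹) = (if lam s = 1 then g else g⁻¹)⁻¹
      rw [h2]
      rcases Int.units_eq_one_or (lam s) with h3 | h3
      · rw [h3, if_neg (by decide), if_pos rfl]
      · rw [h3, if_pos (by decide), if_neg (by decide), inv_inv])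
  have hr : rr m (cc q x) q = f := by
    unfold rr
    have e : js m (cc q x) q = f := by
      unfold js
      rw [ht, cq]
      exact key.1
    rw [e]
    apply CC_one hm hjs
    rw [hfd, ← map_mul, hF, base_sq, map_one]
  have hk : kk m (cc q x) q = JJ m t (v * o) := by
    unfold kk
    rw [ht, cq]
    exact CC_one hm hjs key.2.1
  unfold BB
  rw [hr, hk, key.2.2, hv', ← map_pow]
  intro hcon
  have h1 : ((fun s => if lam s = 1 then g else g⁻¹) ^ 4 : H → Gq q) = 1 := by
    apply W.base_inj
    rw [hcon, map_one]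
  have h2 := congrFun h1 1
  rw [Pi.pow_apply] at h2
  have h3 : lam 1 = 1 := rfl
  simp only [h3, if_true] at h2
  change g ^ 4 = 1 at h2
  have h4 : g ^ 125 = 1 := Gq_exp q g
  exact hx (eq_one_of_pows h2 h4)

end Pool.Agent.Asc61
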