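import Mathlib
import Pool.Agent.Asc61.Test

set_option autoImplicit false
set_option linter.unusedSectionVars false
set_option linter.unusedVariables false

/-!
# The two-generator test groups and the chain
-/

namespace Pool.Agent.Asc61

open Pool.Agent.LawsFI (F)

abbrev Zm : Type := Multiplicative ℤ

/-- the test group -/
abbrev TG (q : ℕ) : Type := W (Sq q) Zm

theorem BB_base {A T : Type} [Group A] [Group T] (m : ℕ) (c : ℕ → T → A) (i : ℕ) :
    BB m (fun j => (W.base (c j) : W A T)) i = W.base (fun s => BB m (fun j => c j s) i) := by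
  rw [← map_BB W.base m c i]
  congr 1
  funext s
  exact map_BB (Pi.evalMonoidHom (fun _ : T => A) s) m c i

theorem ct_t (q : ℕ) (x y : TG q) : (ct x y).t = 1 := by
  have h := map_ct (W.proj (A := Sq q) (T := Zm)) x y
  change (ct x y).t = ct x.t y.t at h
  rw [h]
  unfold ct
  rw [mul_comm x.t⁻¹ y.t⁻¹]
  group

theorem base_exp (q : ℕ) (b : Zm → Sq q) : (W.base b : TG q) ^ (2 * 375) = 1 := by
  rw [← map_pow]
  have : b ^ (2 * 375) = 1 := by
    funext s
    exact Sq_exp q _
  rw [this, map_one]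

theorem zz_t (q : ℕ) (x y : TG q) (j : ℕ) : (zz x y j).t = 1 := by
  have h := map_zz (W.proj (A := Sq q) (T := Zm)) x y j
  change (zz x y j).t = zz x.t y.t j at h
  rw [h]
  unfold zz ct
  rw [mul_comm x.t⁻¹ y.t⁻¹]
  group

theorem TG_BB {q r : ℕ} (h : r ≠ q) (x y : TG q) : BB 375 (zz x y) r = 1 := by
  have e : zz x y = fun j => (W.base (zz x y j).f : TG q) := by
    funext j
    exact W.eq_base (zz_t q x y j)
  rw [e, BB_base]
  have : (fun s : Zm => BB 375 (fun j => (zz x y j).f s) r) = 1 := by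
    funext s
    exact Sq_BB 375 h _
  rw [this, map_one]

theorem TG_exp (q : ℕ) (x y : TG q) : (ct x y) ^ (2 * 375) = 1 := by
  rw [W.eq_base (ct_t q x y)]
  exact base_exp q _

/-- the test group satisfies the law -/
theorem TG_law (q : ℕ) (x y : TG q) : wv 375 q x y = 1 := by
  unfold wv
  rw [TG_exp, PB_one (fun i _ hi => TG_BB (by omega) x y)]
  unfold ct
  group

/-- partial products -/
def gam {K : Type} [Group K] (c : ℕ → K) : ℕ → K
  | 0 => 1
  | j+1 => gam c j * (c j)⁻¹

theorem realise {K : Type} [Group K] (c : ℕ → K) :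
    ∃ x y : W K Zm, (∀ j, (zz x y j).t = 1) ∧ ∀ j, (zz x y j).f 1 = c j := by
  set T : Zm := Multiplicative.ofAdd 1 with hT
  set g : Zm → K := fun s => gam c (Multiplicative.toAdd s).natAbs with hg
  have hct : ct (W.top T) (W.base g : W K Zm) = W.base (fun s => (g (s * T⁻¹))⁻¹ * g s) := by
    unfold ct
    rw [← map_inv (W.base : (Zm → K) →* W K Zm), W.conj_base, ← map_mul]
    rfl
  have hzz : ∀ j, zz (W.top T) (W.base g : W K Zm) j =
      W.base (fun s => (g (s * (T ^ j)⁻¹ * T⁻¹))⁻¹ * g (s * (T ^ j)⁻¹)) := by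
    intro j
    unfold zz
    rw [hct, ← map_pow, W.conj_base]
  refine ⟨W.top T, W.base g, fun j => ?_, fun j => ?_⟩
  · rw [hzz]; rfl
  · rw [hzz]
    change (g (1 * (T ^ j)⁻¹ * T⁻¹))⁻¹ * g (1 * (T ^ j)⁻¹) = c j
    have e1 : g (1 * (T ^ j)⁻¹) = gam c j := by
      rw [hg]
      simp only []
      congr 1
      simp [hT, one_mul, toAdd_inv, toAdd_pow]
    have e2 : g (1 * (T ^ j)⁻¹ * T⁻¹) = gam c (j + 1) := by
      rw [hg]
      simp only []
      congr 1
      simp [hT, one_mul, toAdd_inv, toAdd_pow]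
      omega
    rw [e1, e2, gam]
    group

theorem TG_not (q : ℕ) : ∃ x y : TG q, wv 375 (q + 1) x y ≠ 1 := by
  obtain ⟨c, hc⟩ := Sq_crit q (m := 375) (e := 187) (by norm_num)
  obtain ⟨x, y, h1, h2⟩ := realise c
  refine ⟨x, y, fun hcon => hc ?_⟩
  unfold wv at hcon
  rw [TG_exp, PB_last (fun i _ hi => TG_BB (by omega) x y), Nat.zero_add] at hcon
  have e0 : ct y (1 : TG q) = 1 := by unfold ct; group
  rw [e0, one_mul, one_mul] at hcon
  have e : zz x y = fun j => (W.base (zz x y j).f : TG q) := by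
    funext j
    exact W.eq_base (h1 j)
  rw [e, BB_base] at hcon
  have h3 : (fun s : Zm => BB 375 (fun j => (zz x y j).f s) q) = 1 := by
    apply W.base_inj
    rw [hcon, map_one]
  have h4 := congrFun h3 1
  simp only [h2] at h4
  exact h4

/-! ### the chain -/

abbrev F2 : Type := FreeGroup (Fin 2)

/-- the words -/
def wd (k : ℕ) : F2 := wv 375 k (FreeGroup.of 0) (FreeGroup.of 1)

/-- the fully invariant subgroups -/
def V (w : F2) : Subgroup F2 := Subgroup.closure (Set.range (fun f : F2 →* F2 => f w))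

theorem map_wd {K : Type*} [Group K] (f : F2 →* K) (k : ℕ) :
    f (wd k) = wv 375 k (f (FreeGroup.of 0)) (f (FreeGroup.of 1)) := map_wv f 375 k _ _

theorem V_le_of {w : F2} {N : Subgroup F2} (h : ∀ f : F2 →* F2, f w ∈ N) : V w ≤ N := by
  unfold V
  rw [Subgroup.closure_le]
  rintro _ ⟨f, rfl⟩
  exact h f

theorem V_map (w : F2) (f : F2 →* F2) {a : F2} (ha : a ∈ V w) : f a ∈ V w := by
  have h : V w ≤ (V w).comap f := by
    unfold V
    rw [Subgroup.closure_le]
    rintro _ ⟨g, rfl⟩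
    exact Subgroup.subset_closure ⟨f.comp g, rfl⟩
  exact h ha

instance V_normal (w : F2) : (V w).Normal := by
  constructor
  intro n hn g
  have := V_map w (MulAut.conj g).toMonoidHom hn
  simpa using this

theorem wv_mem {k : ℕ} (x y : F2) : wv 375 k x y ∈ V (wd k) := by
  have h := map_wd (FreeGroup.lift ![x, y]) k
  have h1 : FreeGroup.lift ![x, y] (FreeGroup.of 0) = x := by simp
  have h2 : FreeGroup.lift ![x, y] (FreeGroup.of 1) = y := by simp
  rw [h1, h2] at h
  rw [← h]
  exact Subgroup.subset_closure ⟨_, rfl⟩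

theorem V_le (k : ℕ) : V (wd k) ≤ V (wd (k+1)) := by
  have hlaw : ∀ X Y : F2 ⧸ V (wd (k+1)), wv 375 (k+1) X Y = 1 := by
    intro X Y
    obtain ⟨x, rfl⟩ := QuotientGroup.mk'_surjective _ X
    obtain ⟨y, rfl⟩ := QuotientGroup.mk'_surjective _ Y
    rw [← map_wv]
    exact (QuotientGroup.eq_one_iff _).mpr (wv_mem x y)
  have hm : 375 = 2 * 187 + 1 := by norm_num
  have h := merge_law hm hlaw
  apply V_le_of
  intro f
  have h2 : (QuotientGroup.mk' (V (wd (k+1)))) (f (wd k)) = 1 := by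
    change ((QuotientGroup.mk' (V (wd (k+1)))).comp f) (wd k) = 1
    rw [map_wd]
    exact h _ _
  exact (QuotientGroup.eq_one_iff _).mp h2

theorem not_mem {K : Type} [Group K] {k : ℕ} (hlaw : ∀ x y : K, wv 375 k x y = 1) {x y : K}
    (hxy : wv 375 (k+1) x y ≠ 1) : wd (k+1) ∉ V (wd k) := by
  intro hmem
  obtain ⟨g, hg0, hg1⟩ : ∃ g : F2 →* K, g (FreeGroup.of 0) = x ∧ g (FreeGroup.of 1) = y :=
    ⟨FreeGroup.lift ![x, y], by simp, by simp⟩
  have hker : V (wd k) ≤ g.ker := by
    apply V_le_of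
    intro f
    rw [MonoidHom.mem_ker]
    have h5 := map_wd (g.comp f) k
    rw [MonoidHom.comp_apply] at h5
    rw [h5]
    exact hlaw _ _
  have h := MonoidHom.mem_ker.mp (hker hmem)
  have h5 := map_wd g (k + 1)
  rw [hg0, hg1] at h5
  apply hxy
  rw [← h5]
  exact h

theorem V_lt (k : ℕ) : V (wd k) < V (wd (k+1)) := by
  refine lt_of_le_of_ne (V_le k) (fun hcon => ?_)
  obtain ⟨x, y, hxy⟩ := TG_not k
  have hmem : wd (k+1) ∈ V (wd k) := by
    rw [hcon]
    exact Subgroup.subset_closure ⟨MonoidHom.id _, rfl⟩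
  exact not_mem (TG_law k) hxy hmem

theorem chain : StrictMono (fun n : ℕ => Subgroup.closure
    (Set.range (fun f : FreeGroup (Fin 2) →* FreeGroup (Fin 2) => f (wd n)))) :=
  strictMono_nat_of_lt_succ V_lt

end Pool.Agent.Asc61
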